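import Pool.Agent.W375.MT.Sum
import Pool.Agent.W425.IM.Stm

/-!
# IM-SUMI: the class of the jets of an ideal
-/

set_option autoImplicit false

namespace Pool.Agent.W63.IM

open MvPolynomial
open Pool.Agent.W428.MOT
open Pool.Agent.W426.SM (AffInd gord ford IsRay face)
open Pool.Agent.W425.IM
open Pool.Agent.W375.MT (weight_eq ev_cp)

section comb

variable {r k n : ℕ} (π : Fin r → Fin k) (w : Fin r → Fin n → ℕ)

theorem mI_le (u : Fin n → ℕ) (j : Fin r) : mI π w u (π j) ≤ ∑ l, u l * w j l :=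
  ciInf_le (OrderBot.bddBelow _) (⟨j, rfl⟩ : {j' // π j' = π j})

theorem mI_att (hπ : Function.Surjective π) (u : Fin n → ℕ) (i : Fin k) :
    ∃ j, π j = i ∧ ∑ l, u l * w j l = mI π w u i := by
  obtain ⟨j0, hj0⟩ := hπ i
  have : Nonempty {j // π j = i} := ⟨⟨j0, hj0⟩⟩
  have h := Nat.sInf_mem (s := Set.range fun j : {j // π j = i} => ∑ l, u l * w j.1 l)
    (Set.range_nonempty _)
  obtain ⟨⟨j, hj⟩, hj'⟩ := h
  exact ⟨j, hj, hj'⟩

theorem sum_vv (u : Fin (k + n) → ℕ) (j : Fin r) :
    ∑ i, u i * vv π w j i = u (Fin.castAdd n (π j)) + ∑ l, u (Fin.natAdd k l) * w j l := by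
  rw [Fin.sum_univ_add]
  congr 1
  · have h1 : ∀ i : Fin k, u (Fin.castAdd n i) * vv π w j (Fin.castAdd n i)
        = if i = π j then u (Fin.castAdd n (π j)) else 0 := by
      intro i
      unfold vv
      rw [Fin.append_left]
      by_cases h : i = π j
      · subst h
        simp
      · rw [Pi.single_eq_of_ne h, mul_zero, if_neg h]
    rw [Finset.sum_congr rfl fun i _ => h1 i, Finset.sum_ite_eq' Finset.univ (π j)]
    simp
  · refine Finset.sum_congr rfl fun l _ => ?_
    unfold vv
    rw [Fin.append_right]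

theorem gord_le (m : Fin r → Fin n → ℕ) (u : Fin n → ℕ) (j : Fin r) :
    gord m u ≤ ∑ i, u i * m j i := ciInf_le (OrderBot.bddBelow _) j

theorem gord_att (hr : 0 < r) (m : Fin r → Fin n → ℕ) (u : Fin n → ℕ) :
    ∃ j, ∑ i, u i * m j i = gord m u := by
  have : Nonempty (Fin r) := ⟨⟨0, hr⟩⟩
  have h := Nat.sInf_mem (s := Set.range fun j : Fin r => ∑ l, u l * m j l)
    (Set.range_nonempty _)
  obtain ⟨j, hj⟩ := h
  exact ⟨j, hj⟩

theorem ford_eq (m : Fin r → Fin n → ℕ) (u : Fin n → ℕ) : ford 0 m 1 u = gord m u := by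
  simp [ford]

variable (N : ℕ)

/-- the generators of small order -/
noncomputable def TT (u : Fin n → ℕ) : Finset (Fin k) :=
  Finset.univ.filter fun i => mI π w u i < N

/-- the minimal monomials of the generators of order at most `N` -/
noncomputable def ta (u : Fin n → ℕ) : Finset (Fin r) :=
  Finset.univ.filter fun j => mI π w u (π j) ≤ N ∧ ∑ l, u l * w j l = mI π w u (π j)

theorem mem_TT (u : Fin n → ℕ) (i : Fin k) : i ∈ TT π w N u ↔ mI π w u i < N := by
  simp [TT]

theorem mem_ta (u : Fin n → ℕ) (j : Fin r) :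
    j ∈ ta π w N u ↔ mI π w u (π j) ≤ N ∧ ∑ l, u l * w j l = mI π w u (π j) := by
  simp [ta]

theorem mem_image_ta (hπ : Function.Surjective π) (u : Fin n → ℕ) (i : Fin k) :
    i ∈ (ta π w N u).image π ↔ mI π w u i ≤ N := by
  rw [Finset.mem_image]
  constructor
  · rintro ⟨j, hj, rfl⟩
    exact ((mem_ta π w N u j).1 hj).1
  · intro h
    obtain ⟨j, hj, hj'⟩ := mI_att π w hπ u i
    subst hj
    exact ⟨j, (mem_ta π w N u j).2 ⟨h, hj'⟩, rfl⟩

theorem TT_sub (hπ : Function.Surjective π) (u : Fin n → ℕ) :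
    TT π w N u ⊆ (ta π w N u).image π := by
  intro i hi
  rw [mem_image_ta π w N hπ]
  exact ((mem_TT π w N u i).1 hi).le

theorem mem_freeI (τ : Finset (Fin r)) (l : Fin n) : l ∈ freeI w τ ↔ ∀ j ∈ τ, w j l = 0 := by
  simp [freeI]

theorem freeI_eq (τ : Finset (Fin r)) : free 0 w Finset.univ τ = freeI w τ := by
  ext l
  simp [free, freeI]

theorem mem_JJ_left (T : Finset (Fin k)) (i : Fin k) : Fin.castAdd n i ∈ JJ n T ↔ i ∈ T := by
  unfold JJ
  rw [Finset.mem_union, Finset.mem_map, Finset.mem_map]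
  constructor
  · rintro (⟨a, ha, hb⟩ | ⟨a, ha, hb⟩)
    · have : a = i := by simpa using hb
      rwa [this] at ha
    · exfalso
      have h1 : ((Fin.natAdd k a : Fin (k + n)) : ℕ) = (Fin.castAdd n i : Fin (k + n)) := by
        rw [← hb]
        rfl
      simp at h1
      omega
  · intro h
    exact Or.inl ⟨i, h, rfl⟩

theorem mem_JJ_right (T : Finset (Fin k)) (l : Fin n) : Fin.natAdd k l ∈ JJ n T := by
  unfold JJ
  rw [Finset.mem_union, Finset.mem_map, Finset.mem_map]
  exact Or.inr ⟨l, Finset.mem_univ _, rfl⟩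

theorem wt_eq (T : Finset (Fin k)) (τ : Finset (Fin r)) (hT : T ⊆ τ.image π)
    (u : Fin (k + n) → ℕ) :
    wt 0 (vv π w) (JJ n T) τ N u =
      (∏ i : Fin k, Polynomial.X ^ u (Fin.castAdd n i)) *
        wt 0 w Finset.univ τ N (fun l => u (Fin.natAdd k l)) := by
  unfold wt
  rw [Fin.prod_univ_add]
  congr 1
  · refine Finset.prod_congr rfl fun i _ => ?_
    rw [if_neg]
    intro h
    simp only [free, Finset.mem_filter, mem_JJ_left] at h
    obtain ⟨h1, -, h2⟩ := h
    obtain ⟨j, hj, hj'⟩ := Finset.mem_image.1 (hT h1)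
    have h3 := h2 j hj
    unfold vv at h3
    rw [Fin.append_left, hj'] at h3
    simp at h3
  · refine Finset.prod_congr rfl fun l _ => ?_
    have h : Fin.natAdd k l ∈ free 0 (vv π w) (JJ n T) τ ↔ l ∈ free 0 w Finset.univ τ := by
      simp only [free, Finset.mem_filter, mem_JJ_right, true_and, Finset.mem_univ, vv,
        Fin.append_right, Pi.zero_apply]
    by_cases h' : l ∈ free 0 w Finset.univ τ
    · rw [if_pos h', if_pos (h.2 h')]
    · rw [if_neg h', if_neg (fun h2 => h' (h.1 h2))]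

/-- the key of the bijection -/
theorem key_fwd (hr : 0 < r) (hπ : Function.Surjective π) (T : Finset (Fin k))
    (τ : Finset (Fin r)) (hT : T ⊆ τ.image π) (u' : Fin (k + n) → ℕ)
    (hA : Adm (JJ n T) u') (hm : amin (vv π w) u' = τ) (hf : gord (vv π w) u' = N) :
    (∀ l, u' (Fin.natAdd k l) ≠ 0) ∧
    (∀ i, u' (Fin.castAdd n i) = N - mI π w (fun l => u' (Fin.natAdd k l)) i) ∧
    TT π w N (fun l => u' (Fin.natAdd k l)) = T ∧ ta π w N (fun l => u' (Fin.natAdd k l)) = τ := by
  set u : Fin n → ℕ := fun l => u' (Fin.natAdd k l) with hu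
  have hmem : ∀ j, j ∈ τ ↔ u' (Fin.castAdd n (π j)) + ∑ l, u l * w j l = N := by
    intro j
    rw [← hm]
    simp only [amin, Finset.mem_filter, Finset.mem_univ, true_and]
    rw [sum_vv, hf]
  have hge : ∀ j, N ≤ u' (Fin.castAdd n (π j)) + ∑ l, u l * w j l := by
    intro j
    have h1 := gord_le (vv π w) u' j
    rw [sum_vv, hf] at h1
    exact h1
  have hnT : ∀ i, i ∉ T → u' (Fin.castAdd n i) = 0 := by
    intro i hi
    by_contra h
    exact hi ((mem_JJ_left T i).1 ((hA _).1 h))
  have hyT : ∀ i, i ∈ T → u' (Fin.castAdd n i) ≠ 0 := by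
    intro i hi
    exact (hA _).2 ((mem_JJ_left T i).2 hi)
  have hcase : ∀ i, (i ∈ τ.image π ∧ u' (Fin.castAdd n i) + mI π w u i = N) ∨
      (i ∉ τ.image π ∧ u' (Fin.castAdd n i) = 0 ∧ N < mI π w u i) := by
    intro i
    by_cases hi : i ∈ τ.image π
    · left
      refine ⟨hi, ?_⟩
      obtain ⟨j, hj, rfl⟩ := Finset.mem_image.1 hi
      have h1 := (hmem j).1 hj
      have h2 := mI_le π w u j
      obtain ⟨j2, hj2, hj2'⟩ := mI_att π w hπ u (π j)
      have h3 := hge j2
      rw [hj2, hj2'] at h3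
      omega
    · right
      have h0 : u' (Fin.castAdd n i) = 0 := hnT i (fun h => hi (hT h))
      refine ⟨hi, h0, ?_⟩
      obtain ⟨j2, hj2, hj2'⟩ := mI_att π w hπ u i
      have h3 := hge j2
      have h4 : ¬ (j2 ∈ τ) := fun h => hi (Finset.mem_image.2 ⟨j2, h, hj2⟩)
      rw [hmem] at h4
      rw [hj2, hj2', h0] at h3 h4
      omega
  refine ⟨fun l => (hA _).2 (mem_JJ_right T l), ?_, ?_, ?_⟩
  · intro i
    rcases hcase i with ⟨-, h⟩ | ⟨-, h1, h2⟩ <;> omega
  · ext i
    rw [mem_TT]
    constructor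
    · intro h
      rcases hcase i with ⟨-, h'⟩ | ⟨-, h1, h2⟩
      · by_contra hi
        have := hnT i hi
        omega
      · omega
    · intro h
      have h3 := hyT i h
      rcases hcase i with ⟨-, h'⟩ | ⟨-, h1, h2⟩
      · omega
      · exact absurd h1 h3
  · ext j
    rw [mem_ta, hmem]
    rcases hcase (π j) with ⟨-, h'⟩ | ⟨h0, h1, h2⟩
    · omega
    · have h3 : ¬ (j ∈ τ) := fun h => h0 (Finset.mem_image.2 ⟨j, h, rfl⟩)
      rw [hmem] at h3
      omega

theorem key_bwd (hr : 0 < r) (hπ : Function.Surjective π)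
    (u : Fin n → ℕ) (h0 : ∀ l, u l ≠ 0) (hne : (ta π w N u).Nonempty) :
    Adm (JJ n (TT π w N u)) (Fin.append (fun i => N - mI π w u i) u) ∧
    amin (vv π w) (Fin.append (fun i => N - mI π w u i) u) = ta π w N u ∧
    gord (vv π w) (Fin.append (fun i => N - mI π w u i) u) = N := by
  set u' : Fin (k + n) → ℕ := Fin.append (fun i => N - mI π w u i) u with hu'
  have hl : ∀ i, u' (Fin.castAdd n i) = N - mI π w u i := fun i => by
    rw [hu', Fin.append_left]
  have hri : ∀ l, u' (Fin.natAdd k l) = u l := fun l => by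
    rw [hu', Fin.append_right]
  have hsum : ∀ j, ∑ i, u' i * vv π w j i = (N - mI π w u (π j)) + ∑ l, u l * w j l := by
    intro j
    rw [sum_vv, hl]
    simp only [hri]
  have hge : ∀ j, N ≤ ∑ i, u' i * vv π w j i := by
    intro j
    rw [hsum]
    have := mI_le π w u j
    omega
  have hg : gord (vv π w) u' = N := by
    obtain ⟨j, hj⟩ := hne
    rw [mem_ta] at hj
    have h1 := gord_le (vv π w) u' j
    obtain ⟨j2, hj2⟩ := gord_att hr (vv π w) u'
    have h2 := hge j2
    rw [hsum] at h1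
    omega
  refine ⟨?_, ?_, hg⟩
  · intro i
    refine Fin.addCases (fun i => ?_) (fun l => ?_) i
    · rw [hl, mem_JJ_left, mem_TT]
      omega
    · rw [hri]
      exact ⟨fun _ => mem_JJ_right _ l, fun _ => h0 l⟩
  · ext j
    simp only [amin, Finset.mem_filter, Finset.mem_univ, true_and]
    rw [hg, hsum, mem_ta]
    have := mI_le π w u j
    omega

end comb

/-- (SUMI) -/
theorem main (h1 : S_JetI) (h2 : S_ShiftI) (h3 : S_CondI) (h4 : S_StI) : S_SumI := by
  classical
  intro K _ _ R _ M n k r π w c haff hc hπ hk Y hY N hN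
  have hr : 0 < r := by
    obtain ⟨j, -⟩ := hπ ⟨0, hk⟩
    exact lt_of_le_of_lt (Nat.zero_le _) j.isLt
  set U := (Fintype.piFinset fun _ : Fin n => Finset.range (N + 2)).filter
    (fun u => ∀ l, u l ≠ 0) with hU
  -- the class attached to a type
  set G : Finset (Fin k) → Finset (Fin r) → R := fun T τ =>
    M.L ^ (freeI w τ).card * (M.χ _ (BI π w c (freeI w τ) T τ) * M.L ^ T.card -
      M.χ _ (BI π w c (freeI w τ) (τ.image π) τ)) with hG
  have key : ∀ u ∈ U, (M.χ (Fin n × Fin (2 * N + 1 + 1)) (stratI (gen π w c) N N u) -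
      M.χ (Fin n × Fin (2 * N + 1 + 1)) (stratI (gen π w c) N (N + 1) u)) *
      Y ^ (n * (2 * N + 1)) =
      G (TT π w N u) (ta π w N u) * (Y ^ (∑ i, (N - mI π w u i)) *
        Polynomial.eval₂ (Int.castRingHom R) Y (wt 0 w Finset.univ (ta π w N u) N u)) := by
    intro u hu
    rw [hU, Finset.mem_filter, Fintype.mem_piFinset] at hu
    obtain ⟨hu1, hA⟩ := hu
    have hu' : ∀ i, u i ≤ N + 1 := by
      intro i
      have := Finset.mem_range.1 (hu1 i)
      omega
    have hset : ∀ T : ℕ, (Y0 (0 : Fin n → K) N u ∩ {y | ∀ i, ∀ j < T, PowerSeries.coeff j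
          (aeval (fun l => PowerSeries.X ^ u l * arc y l) (gen π w c i)) = 0}) =
        (Y0 (0 : Fin n → K) N u ∩ {y | ∀ i, ∀ j < T - mI π w u i,
          PowerSeries.coeff j (gI π w c u i (arc y)) = 0}) := by
      intro T
      ext y
      simp only [Set.mem_inter_iff, Set.mem_ofPred_eq]
      constructor
      · rintro ⟨ha, hb⟩
        exact ⟨ha, fun i => (h3 π w c hπ u i (arc y) T).1 (hb i)⟩
      · rintro ⟨ha, hb⟩
        exact ⟨ha, fun i => (h3 π w c hπ u i (arc y) T).2 (hb i)⟩
    have hFr : ∀ l, l ∉ freeI w (ta π w N u) → u l ≤ N := by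
      intro l hl
      rw [mem_freeI] at hl
      push Not at hl
      obtain ⟨j, hj, hj'⟩ := hl
      rw [mem_ta] at hj
      have h5 : u l * w j l ≤ ∑ l, u l * w j l :=
        Finset.single_le_sum (f := fun l => u l * w j l) (fun _ _ => Nat.zero_le _)
          (Finset.mem_univ l)
      have h6 : u l ≤ u l * w j l := Nat.le_mul_of_pos_right _ (Nat.pos_of_ne_zero hj')
      omega
    have hcond : ∀ T : ℕ, T ≤ N + 1 → ∀ i, 0 < T - mI π w u i → ∀ j, π j = i →
        (j ∈ ta π w N u ↔ ∑ l, u l * w j l = mI π w u i) ∧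
        (j ∈ ta π w N u → ∀ l ∈ freeI w (ta π w N u), w j l = 0) := by
      intro T hT i hi j hj
      subst hj
      refine ⟨?_, fun hj l hl => (mem_freeI w _ l).1 hl j hj⟩
      rw [mem_ta]
      constructor
      · exact fun h => h.2
      · intro h
        exact ⟨by omega, h⟩
    have e1 := h4 M π w c haff hc hπ N hN u hA hu' (fun i => N - mI π w u i)
      (fun i => by omega) (freeI w (ta π w N u)) (ta π w N u) hFr (hcond N (by omega))
    have e2 := h4 M π w c haff hc hπ N hN u hA hu' (fun i => N + 1 - mI π w u i)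
      (fun i => by omega) (freeI w (ta π w N u)) (ta π w N u) hFr (hcond (N + 1) le_rfl)
    rw [h2 M (gen π w c) N hN N (by omega) u hA hu', h2 M (gen π w c) N hN (N + 1) le_rfl u hA hu',
      hset N, hset (N + 1)]
    have f1 : (Finset.univ.filter fun i => 0 < N - mI π w u i) = TT π w N u := by
      ext i
      rw [mem_TT, Finset.mem_filter]
      simp only [Finset.mem_univ, true_and]
      omega
    have f2 : (Finset.univ.filter fun i => 0 < N + 1 - mI π w u i) = (ta π w N u).image π := by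
      ext i
      rw [mem_image_ta π w N hπ, Finset.mem_filter]
      simp only [Finset.mem_univ, true_and]
      omega
    have f3 : ∑ i, (N + 1 - mI π w u i - 1) = ∑ i, (N - mI π w u i) :=
      Finset.sum_congr rfl fun i _ => by omega
    have f4 : ∑ i, (N - mI π w u i - 1) + (TT π w N u).card = ∑ i, (N - mI π w u i) := by
      have h5 : (TT π w N u).card = ∑ i, if mI π w u i < N then 1 else 0 := by
        rw [Finset.card_eq_sum_ones, TT, Finset.sum_filter]
      rw [h5, ← Finset.sum_add_distrib]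
      refine Finset.sum_congr rfl fun i _ => ?_
      split_ifs <;> omega
    rw [f1] at e1
    rw [f2, f3] at e2
    have hw := weight_eq (0 : Fin n → ℕ) w Finset.univ (ta π w N u) N u hu' M.L Y hY
    rw [freeI_eq] at hw
    set P := M.χ (Fin n × Fin (2 * N + 1 + 1)) (Y0 (0 : Fin n → K) N u ∩ {y | ∀ i,
      ∀ j < N - mI π w u i, PowerSeries.coeff j (gI π w c u i (arc y)) = 0}) with hP
    set Q := M.χ (Fin n × Fin (2 * N + 1 + 1)) (Y0 (0 : Fin n → K) N u ∩ {y | ∀ i,
      ∀ j < N + 1 - mI π w u i, PowerSeries.coeff j (gI π w c u i (arc y)) = 0}) with hQ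
    set W := (M.L - 1) ^ ((freeI w (ta π w N u)).filter fun l => u l ≤ N).card *
        M.L ^ ((freeI w (ta π w N u)).filter fun l => ¬ u l ≤ N).card *
        M.L ^ (∑ l, (2 * N + 1 - u l)) with hW
    set E := Polynomial.eval₂ (Int.castRingHom R) Y (wt 0 w Finset.univ (ta π w N u) N u) with hE
    set b := ∑ i, (N - mI π w u i) with hb
    have hLY : ∀ m : ℕ, M.L ^ m * Y ^ m = 1 := fun m => by rw [← mul_pow, hY, one_pow]
    have e1' : P * M.L ^ b = M.χ _ (BI π w c (freeI w (ta π w N u)) (TT π w N u) (ta π w N u)) *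
        W * M.L ^ (TT π w N u).card := by
      rw [← f4, pow_add, ← mul_assoc, e1, hW]
      ring
    have e2' : Q * M.L ^ b =
        M.χ _ (BI π w c (freeI w (ta π w N u)) ((ta π w N u).image π) (ta π w N u)) * W := by
      rw [e2, hW]
      ring
    have hP' : P = M.χ _ (BI π w c (freeI w (ta π w N u)) (TT π w N u) (ta π w N u)) *
        W * M.L ^ (TT π w N u).card * Y ^ b := by
      rw [← e1', mul_assoc, hLY, mul_one]
    have hQ' : Q = M.χ _ (BI π w c (freeI w (ta π w N u)) ((ta π w N u).image π) (ta π w N u)) *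
        W * Y ^ b := by
      rw [← e2', mul_assoc, hLY, mul_one]
    rw [hP', hQ', hG]
    simp only
    have hw' : W * Y ^ (n * (2 * N + 1)) = M.L ^ (freeI w (ta π w N u)).card * E := by
      rw [← hw]
    linear_combination (M.χ _ (BI π w c (freeI w (ta π w N u)) (TT π w N u) (ta π w N u)) *
      M.L ^ (TT π w N u).card * Y ^ b -
      M.χ _ (BI π w c (freeI w (ta π w N u)) ((ta π w N u).image π) (ta π w N u)) * Y ^ b) * hw'
  have hJet := h1 M (gen π w c) N hN
  have e1 : M.χ _ (JetI (gen π w c) N) * Y ^ (n * N) =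
      (M.χ (Fin n × Fin (N + 1)) (JetI (gen π w c) N) * M.L ^ (n * (N + 1))) *
        Y ^ (n * (2 * N + 1)) := by
    have h12 : M.L ^ (n * (N + 1)) * Y ^ (n * (2 * N + 1)) = Y ^ (n * N) := by
      have h13 : n * (2 * N + 1) = n * (N + 1) + n * N := by ring
      rw [h13, pow_add, ← mul_assoc, ← mul_pow, hY, one_pow, one_mul]
    rw [mul_assoc, h12]
  rw [e1, hJet, Finset.sum_mul, Finset.sum_congr rfl key]
  rw [← Finset.sum_fiberwise U (fun u => TT π w N u)]
  refine Finset.sum_congr rfl fun T _ => ?_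
  rw [← Finset.sum_fiberwise (U.filter fun u => TT π w N u = T) (fun u => ta π w N u)]
  refine Finset.sum_congr rfl fun τ _ => ?_
  split_ifs with hT
  · rcases Finset.eq_empty_or_nonempty τ with hτ | hτ
    · -- no contribution
      subst hτ
      have hT0 : T = ∅ := by
        rw [Finset.image_empty] at hT
        exact Finset.subset_empty.1 hT
      subst hT0
      have hG0 : G ∅ ∅ = 0 := by
        simp [hG]
      have hG1 : M.L ^ (freeI w (∅ : Finset (Fin r))).card *
          (M.χ _ (BI π w c (freeI w ∅) ∅ ∅) * M.L ^ (∅ : Finset (Fin k)).card -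
            M.χ _ (BI π w c (freeI w ∅) ((∅ : Finset (Fin r)).image π) ∅)) = 0 := hG0
      rw [hG1, zero_mul]
      refine Finset.sum_eq_zero fun u hu => ?_
      rw [Finset.mem_filter, Finset.mem_filter] at hu
      rw [hu.1.2, hu.2, hG0, zero_mul]
    · rw [ev_cp, Finset.mul_sum]
      have hG1 : M.L ^ (freeI w τ).card *
          (M.χ _ (BI π w c (freeI w τ) T τ) * M.L ^ T.card -
            M.χ _ (BI π w c (freeI w τ) (τ.image π) τ)) = G T τ := rfl
      rw [hG1, ← Finset.mul_sum, ← Finset.sum_filter, Finset.mul_sum]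
      refine Finset.sum_bij' (fun u _ => Fin.append (fun i => N - mI π w u i) u)
        (fun u' _ => fun l => u' (Fin.natAdd k l)) ?_ ?_ ?_ ?_ ?_
      · intro u hu
        rw [Finset.mem_filter, Finset.mem_filter, hU, Finset.mem_filter,
          Fintype.mem_piFinset] at hu
        obtain ⟨⟨⟨hu1, hu2⟩, hu3⟩, hu4⟩ := hu
        obtain ⟨g1, g2, g3⟩ := key_bwd π w N hr hπ u hu2 (by rw [hu4]; exact hτ)
        rw [hu3] at g1
        rw [hu4] at g2
        rw [Finset.mem_filter, Finset.mem_filter, Finset.mem_filter, Fintype.mem_piFinset,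
          ford_eq]
        refine ⟨⟨⟨?_, g1⟩, g2⟩, g3⟩
        intro i
        refine Fin.addCases (fun i => ?_) (fun l => ?_) i
        · rw [Fin.append_left, Finset.mem_range]
          omega
        · rw [Fin.append_right]
          exact hu1 l
      · intro u' hu'
        rw [Finset.mem_filter, Finset.mem_filter, Finset.mem_filter, Fintype.mem_piFinset,
          ford_eq] at hu'
        obtain ⟨⟨⟨hu1, hu2⟩, hu3⟩, hu4⟩ := hu'
        obtain ⟨g1, g2, g3, g4⟩ := key_fwd π w N hr hπ T τ hT u' hu2 hu3 hu4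
        rw [Finset.mem_filter, Finset.mem_filter, hU, Finset.mem_filter,
          Fintype.mem_piFinset]
        exact ⟨⟨⟨fun l => hu1 _, g1⟩, g3⟩, g4⟩
      · intro u _
        funext l
        simp only [Fin.append_right]
      · intro u' hu'
        rw [Finset.mem_filter, Finset.mem_filter, Finset.mem_filter, Fintype.mem_piFinset,
          ford_eq] at hu'
        obtain ⟨⟨⟨hu1, hu2⟩, hu3⟩, hu4⟩ := hu'
        obtain ⟨g1, g2, g3, g4⟩ := key_fwd π w N hr hπ T τ hT u' hu2 hu3 hu4
        funext i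
        refine Fin.addCases (fun i => ?_) (fun l => ?_) i
        · rw [Fin.append_left, g2]
        · rw [Fin.append_right]
      · intro u hu
        rw [Finset.mem_filter, Finset.mem_filter] at hu
        rw [hu.1.2, hu.2, wt_eq π w N T τ hT]
        simp only [Fin.append_left, Fin.append_right]
        rw [Polynomial.eval₂_mul, Polynomial.eval₂_finsetProd, ← Finset.prod_pow_eq_pow_sum]
        simp only [Polynomial.eval₂_pow, Polynomial.eval₂_X]
  · refine Finset.sum_eq_zero fun u hu => ?_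
    exfalso
    rw [Finset.mem_filter, Finset.mem_filter] at hu
    apply hT
    rw [← hu.1.2, ← hu.2]
    exact TT_sub π w N hπ u

end Pool.Agent.W63.IM
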